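import Mathlib

set_option autoImplicit false

namespace Pool.Agent.Results.MP_a1f67d_pr.Disproof

open MeasureTheory ProbabilityTheory Filter Topology

noncomputable def coin : Measure Bool := (PMF.uniformOfFintype Bool).toMeasure

instance : IsProbabilityMeasure coin := by unfold coin; infer_instance

lemma coin_real (b : Bool) : coin.real {b} = 1 / 2 := by
  simp [coin, Measure.real]

noncomputable def mu : Measure (ℤ → Bool) := Measure.infinitePi fun _ => coin

instance : IsProbabilityMeasure mu := by unfold mu; infer_instance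

def sh (k : ℕ) (ω : ℤ → Bool) : ℤ → Bool := fun i => ω (i + k)

lemma sh_meas (k : ℕ) : Measurable (sh k) := by unfold sh; fun_prop

lemma sh_pres (k : ℕ) : MeasurePreserving (sh k) mu mu :=
  ⟨sh_meas k, Measure.map_infinitePi_infinitePi_of_inj (f := fun i : ℤ => i + k)
    (add_left_injective _)⟩

noncomputable def sg (b : Bool) : ℝ := if b then 1 else -1

lemma sg_int : ∫ b, sg b ∂coin = 0 := by
  rw [integral_fintype Integrable.of_finite]
  simp [coin_real, sg]

lemma mu_coord (i : ℤ) : mu.real {ω | ω i = true} = 1 / 2 := by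
  have := (measurePreserving_eval_infinitePi (fun _ : ℤ => coin) i).measureReal_preimage
    (s := {true}) (MeasurableSet.singleton _).nullMeasurableSet
  rw [← coin_real true, ← this]
  rfl

lemma rad_mem (i : ℤ) : MemLp (fun ω : ℤ → Bool => sg (ω i)) 2 mu :=
  MemLp.of_bound ((measurable_of_countable sg).comp (measurable_pi_apply i)).aestronglyMeasurable 1 (Eventually.of_forall fun ω => by
    unfold sg; split_ifs <;> simp)

lemma rad_orth : Orthonormal ℝ fun n : ℕ => (rad_mem (-(n : ℤ))).toLp := by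
  classical
  rw [orthonormal_iff_ite]
  intro i j
  rw [L2.inner_def]
  have e : ∫ ω, inner ℝ ((rad_mem (-(i : ℤ))).toLp _ ω) ((rad_mem (-(j : ℤ))).toLp _ ω) ∂mu =
      ∫ ω, sg (ω (-(i : ℤ))) * sg (ω (-(j : ℤ))) ∂mu := by
    refine integral_congr_ae ?_
    filter_upwards [(rad_mem (-(i : ℤ))).coeFn_toLp, (rad_mem (-(j : ℤ))).coeFn_toLp] with ω h1 h2
    rw [h1, h2]; simp [mul_comm]
  rw [e]
  split_ifs with h
  · subst h
    have : ∀ b, sg b * sg b = 1 := fun b => by cases b <;> simp [sg]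
    simp [this]
  · have hi : iIndepFun (fun (i : ℤ) (ω : ℤ → Bool) => sg (ω i)) mu :=
      iIndepFun_infinitePi (X := fun _ b => sg b) (fun _ => by fun_prop)
    rw [(hi.indepFun (by simpa using h)).integral_fun_mul_eq_mul_integral
      (rad_mem _).1 (rad_mem _).1]
    have := (measurePreserving_eval_infinitePi (fun _ : ℤ => coin) (-(i : ℤ))).hasLaw.integral_comp
      (f := sg) (by fun_prop)
    rw [sg_int] at this
    have h2 : ∫ ω, sg (ω (-(i : ℤ))) ∂mu = 0 := this
    rw [h2, zero_mul]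

lemma mix (B : Set (ℤ → Bool)) (hB : MeasurableSet B) :
    Tendsto (fun n : ℕ => 2 * mu.real ({ω | ω (-(n : ℤ)) = true} ∩ B)) atTop (𝓝 (mu.real B)) := by
  have h1 := (rad_orth.inner_products_summable
    (indicatorConstLp 2 hB (measure_ne_top mu B) (1 : ℝ))).tendsto_atTop_zero
  have e : ∀ n : ℕ, inner ℝ ((rad_mem (-(n : ℤ))).toLp _)
      (indicatorConstLp 2 hB (measure_ne_top mu B) (1 : ℝ)) =
      2 * mu.real ({ω | ω (-(n : ℤ)) = true} ∩ B) - mu.real B := fun n => by
    have hC : MeasurableSet {ω : ℤ → Bool | ω (-(n : ℤ)) = true} :=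
      by measurability
    rw [real_inner_comm, L2.inner_indicatorConstLp_one,
      setIntegral_congr_ae hB ((rad_mem (-(n : ℤ))).coeFn_toLp.mono fun ω h _ => h)]
    have : (fun ω : ℤ → Bool => sg (ω (-(n : ℤ)))) = fun ω =>
        2 * Set.indicator {ω : ℤ → Bool | ω (-(n : ℤ)) = true} 1 ω - 1 := by
      ext ω
      by_cases h : ω (-(n : ℤ)) = true <;> simp [sg, h, Set.indicator]
      norm_num
    rw [this, integral_sub (((integrable_const 1).indicator hC).const_mul 2) (integrable_const 1),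
      integral_const_mul, integral_indicator_one hC, measureReal_restrict_apply hC]
    simp
  simp only [e] at h1
  have h2 := h1.sqrt
  simp only [Real.sqrt_zero, Real.sqrt_sq (norm_nonneg _)] at h2
  have := (tendsto_zero_iff_norm_tendsto_zero.mpr h2).add_const (mu.real B)
  simpa using this

theorem main : ∃ (E : Type) (_ : MeasurableSpace E) (Ω : Type) (_ : MeasurableSpace Ω)
    (P P' : Measure Ω) (X X' : ℕ → Ω → E), IsProbabilityMeasure P ∧ IsProbabilityMeasure P' ∧
    (∀ k, Measurable (X k)) ∧ (∀ k, Measurable (X' k)) ∧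
    (∀ A : Set (ℕ → E), MeasurableSet A →
      Tendsto (fun n : ℕ => P.real {ω | (fun k => X (n + k) ω) ∈ A}) atTop
        (𝓝 (P'.real {ω | (fun k => X' k ω) ∈ A}))) ∧
    (∀ n : ℕ, ∃ A : Set (ℕ → E), MeasurableSet A ∧
      P.real {ω | (fun k => X (n + k) ω) ∈ A} = 1 ∧
      P'.real {ω | (fun k => X' k ω) ∈ A} = 1 / 2) := by
  have hC : ∀ i : ℤ, MeasurableSet {ω : ℤ → Bool | ω i = true} := fun i =>
    by measurability
  have h0 : mu {ω : ℤ → Bool | ω 0 = true} ≠ 0 := fun h => by
    have := mu_coord 0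
    simp [Measure.real, h] at this
  have hcond : ∀ S, (mu[|{ω : ℤ → Bool | ω 0 = true}]).real S =
      2 * mu.real ({ω : ℤ → Bool | ω 0 = true} ∩ S) := fun S => by
    have := mu_coord 0
    rw [Measure.real] at this
    rw [Measure.real, cond_apply (hC 0), ENNReal.toReal_mul, ENNReal.toReal_inv, this]
    norm_num [Measure.real]
  refine ⟨ℤ → Bool, inferInstance, ℤ → Bool, inferInstance, mu[|{ω : ℤ → Bool | ω 0 = true}], mu,
    sh, sh, cond_isProbabilityMeasure h0, inferInstance, sh_meas, sh_meas, fun A hA => ?_,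
    fun n => ⟨{x | x 0 (-(n : ℤ)) = true}, ?_, ?_, ?_⟩⟩
  · have hB : MeasurableSet {ω : ℤ → Bool | (fun k => sh k ω) ∈ A} :=
      measurable_pi_lambda _ sh_meas hA
    refine (mix _ hB).congr fun n => ?_
    rw [hcond, ← (sh_pres n).measureReal_preimage ((hC _).inter hB).nullMeasurableSet]
    congr 2
    ext ω
    have : (fun k => sh k (sh n ω)) = fun k => sh (n + k) ω := by
      ext k i; simp only [sh]; congr 1; push_cast; ring
    simp [this, sh]
  · measurability
  · rw [hcond]
    simp [sh, mu_coord]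
  · simp [sh, mu_coord]

theorem result : ∃ (E : Type) (_ : MeasurableSpace E) (Ω : Type) (_ : MeasurableSpace Ω)
    (P P' : Measure Ω) (X X' : ℕ → Ω → E), IsProbabilityMeasure P ∧ IsProbabilityMeasure P' ∧
    (∀ k, Measurable (X k)) ∧ (∀ k, Measurable (X' k)) ∧
    (∀ A : Set (ℕ → E), MeasurableSet A →
      Tendsto (fun n : ℕ => P.real {ω | (fun k => X (n + k) ω) ∈ A}) atTop
        (𝓝 (P'.real {ω | (fun k => X' k ω) ∈ A}))) ∧
    ¬ Tendsto (fun n : ℕ => ⨆ A : {A : Set (ℕ → E) // MeasurableSet A},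
      |P.real {ω | (fun k => X (n + k) ω) ∈ A.1} - P'.real {ω | (fun k => X' k ω) ∈ A.1}|)
      atTop (𝓝 0) := by
  obtain ⟨E, mE, Ω, mΩ, P, P', X, X', h1, h2, h3, h4, h5, h6⟩ := main
  refine ⟨E, mE, Ω, mΩ, P, P', X, X', h1, h2, h3, h4, h5, fun h => ?_⟩
  have := ge_of_tendsto' (b := 1 / 2) h fun n => by
    obtain ⟨A, hA, e1, e2⟩ := h6 n
    refine le_ciSup_of_le ⟨2, ?_⟩ ⟨A, hA⟩ ?_
    · rintro _ ⟨B, rfl⟩
      have a1 := measureReal_le_one (μ := P) (s := {ω | (fun k => X (n + k) ω) ∈ B.1})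
      have a2 := measureReal_le_one (μ := P') (s := {ω | (fun k => X' k ω) ∈ B.1})
      have a3 := measureReal_nonneg (μ := P) (s := {ω | (fun k => X (n + k) ω) ∈ B.1})
      have a4 := measureReal_nonneg (μ := P') (s := {ω | (fun k => X' k ω) ∈ B.1})
      exact abs_le.mpr ⟨by linarith, by linarith⟩
    · rw [e1, e2]; norm_num
  norm_num at this

end Pool.Agent.Results.MP_a1f67d_pr.Disproof
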